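import Pool.Agent.MP_d6f7e8_al.Res

/-! The monomials of a symbolic power of a monomial ideal. -/

namespace Pool.Agent.MP_d6f7e8_al

open MvPolynomial Pointwise
open Pool.Agent.Results.MP_d6f7e8_al.K4Counterexample

universe u

variable {K : Type u} [Field K] {n : ℕ}

/-- The monomial ideal with exponent vectors `B`. -/
noncomputable abbrev mI (K : Type u) [Field K] (B : Set (Fin n →₀ ℕ)) : Ideal (PR K n) :=
  Ideal.span ((fun v => monomial v (1 : K)) '' B)

/-- `u` is in the monomial localization at `F`. -/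
def Loc (B : Set (Fin n →₀ ℕ)) (F : Finset (Fin n)) (u : Fin n →₀ ℕ) : Prop :=
  ∃ b ∈ B, ∀ i ∈ F, b i ≤ u i

/-- The localization at `F` has a socle element. -/
def Soc (B : Set (Fin n →₀ ℕ)) (F : Finset (Fin n)) : Prop :=
  ∃ w, ¬Loc B F w ∧ ∀ i ∈ F, Loc B F (w + Finsupp.single i 1)

theorem mI_pow (B : Set (Fin n →₀ ℕ)) (k : ℕ) : mI K B ^ k = mI K (k • B) := by
  induction k with
  | zero =>
    rw [pow_zero, zero_nsmul, mI, Set.image_zero, Ideal.one_eq_top]
    exact (Ideal.span_singleton_one).symm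
  | succ k ih =>
    rw [pow_succ, ih, succ_nsmul, mI, mI, mI, Ideal.span_mul_span']
    congr 1
    ext f
    constructor
    · rintro ⟨_, ⟨a, ha, rfl⟩, _, ⟨b, hb, rfl⟩, rfl⟩
      exact ⟨a + b, Set.add_mem_add ha hb, by simp [monomial_mul]⟩
    · rintro ⟨_, ⟨a, ha, b, hb, rfl⟩, rfl⟩
      exact ⟨_, ⟨a, ha, rfl⟩, _, ⟨b, hb, rfl⟩, by simp [monomial_mul]⟩

theorem clear_loc {B : Set (Fin n →₀ ℕ)} {F : Finset (Fin n)} {T : Finset (Fin n →₀ ℕ)}
    (h : ∀ m ∈ T, Loc B F m) :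
    ∃ z : Fin n →₀ ℕ, (∀ i ∈ F, z i = 0) ∧ ∀ m ∈ T, ∃ b ∈ B, b ≤ m + z := by
  classical
  choose! b hb hb' using h
  refine ⟨(∑ m ∈ T, b m).filter (· ∉ F), fun i hi => by simp [hi], fun m hm =>
    ⟨b m, hb m hm, fun i => ?_⟩⟩
  by_cases hi : i ∈ F
  · simpa [hi] using hb' m hm i hi
  · have : b m i ≤ ∑ m ∈ T, b m i :=
      Finset.single_le_sum (f := fun m => b m i) (fun _ _ => Nat.zero_le _) hm
    simp only [Finsupp.add_apply, Finsupp.filter_apply, hi, not_false_eq_true, if_true,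
      Finsupp.finsetSum_apply]
    omega

theorem low_term (F : Finset (Fin n)) {s f : PR K n} (hs : ∃ a ∈ s.support, ∀ i ∈ F, a i = 0)
    (hf : f ≠ 0) : ∃ a, (∀ i ∈ F, a i = 0) ∧ ∃ b ∈ f.support, a + b ∈ (s * f).support := by
  classical
  let key : (Fin n →₀ ℕ) → ℕ ×ₗ Lex (Fin n →₀ ℕ) := fun m => toLex (∑ i ∈ F, m i, toLex m)
  have add : ∀ a b, key (a + b) = key a + key b := fun a b => by
    simp only [key, Finsupp.add_apply, Finset.sum_add_distrib]; rfl
  have inj : ∀ a b, key a = key b → a = b := fun a b e => congrArg (fun p => (ofLex p).2) e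
  obtain ⟨a0, h0, h1⟩ := hs
  obtain ⟨a, ha, ha'⟩ := s.support.exists_min_image key ⟨a0, h0⟩
  obtain ⟨b, hb, hb'⟩ := f.support.exists_min_image key (support_nonempty.2 hf)
  refine ⟨a, ?_, b, hb, ?_⟩
  · have e : ∑ i ∈ F, a i ≤ ∑ i ∈ F, a0 i := Prod.Lex.monotone_fst _ _ (ha' a0 h0)
    rw [Finset.sum_eq_zero h1, Nat.le_zero, Finset.sum_eq_zero_iff] at e
    exact e
  · rw [mem_support_iff, coeff_mul, Finset.sum_eq_single (a, b)]
    · exact mul_ne_zero (mem_support_iff.1 ha) (mem_support_iff.1 hb)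
    · rintro ⟨c, d⟩ hcd hne
      by_contra k
      have e := congrArg key (Finset.HasAntidiagonal.mem_antidiagonal.1 hcd)
      rw [add, add, eq_comm, add_eq_add_iff_eq_and_eq
        (ha' c (mem_support_iff.2 (left_ne_zero_of_mul k)))
        (hb' d (mem_support_iff.2 (right_ne_zero_of_mul k)))] at e
      exact hne (Prod.ext (inj _ _ e.1).symm (inj _ _ e.2).symm)
    · simp

theorem loc_of_mul {B : Set (Fin n →₀ ℕ)} {F : Finset (Fin n)} {s f : PR K n}
    (hs : ∃ a ∈ s.support, ∀ i ∈ F, a i = 0) (h : s * f ∈ mI K B) :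
    ∀ m ∈ f.support, Loc B F m := by
  classical
  have up : ∀ g : PR K n, g ∈ mI K {m | Loc B F m} ↔ ∀ m ∈ g.support, Loc B F m := fun g => by
    rw [mem_ideal_span_monomial_image]
    exact forall₂_congr fun m _ => ⟨fun ⟨_, ⟨b, hb, k⟩, k'⟩ =>
      ⟨b, hb, fun i hi => (k i hi).trans (k' i)⟩, fun k => ⟨m, k, le_rfl⟩⟩
  set f1 : PR K n := ∑ m ∈ f.support with Loc B F m, monomial m (coeff m f) with hf1
  have c1 : ∀ m, coeff m f1 = if Loc B F m then coeff m f else 0 := fun m => by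
    simp only [hf1, coeff_sum, coeff_monomial, Finset.sum_ite_eq', Finset.mem_filter,
      mem_support_iff]
    by_cases k : coeff m f = 0 <;> simp [k]
  have h1 : f1 ∈ mI K {m | Loc B F m} := (up _).2 fun m hm => by
    by_contra k
    simp [c1, k] at hm
  have h2 : s * (f - f1) ∈ mI K {m | Loc B F m} := by
    rw [mul_sub]
    have sub : B ⊆ {m | Loc B F m} := fun b hb => ⟨b, hb, fun _ _ => le_rfl⟩
    exact sub_mem (Ideal.span_mono (Set.image_mono sub) h) (Ideal.mul_mem_left _ _ h1)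
  by_cases e : f - f1 = 0
  · rw [sub_eq_zero.1 e]; exact (up _).1 h1
  · obtain ⟨a, ha, b, hb, k⟩ := low_term F hs e
    obtain ⟨c, hc, k'⟩ := (up _).1 h2 _ k
    have : Loc B F b := ⟨c, hc, fun i hi => by simpa [ha i hi] using k' i hi⟩
    simp [c1, this] at hb

/-- The prime generated by the variables of `F`. -/
noncomputable def pF (K : Type u) [Field K] (F : Finset (Fin n)) : Ideal (PR K n) :=
  mI K ((fun i => Finsupp.single i 1) '' (F : Set (Fin n)))

theorem notMem_pF {F : Finset (Fin n)} {s : PR K n} :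
    s ∉ pF K F ↔ ∃ a ∈ s.support, ∀ i ∈ F, a i = 0 := by
  simp [pF, mem_ideal_span_monomial_image, Finsupp.single_le_iff]

theorem pF_prime (F : Finset (Fin n)) : (pF K F).IsPrime := by
  refine ⟨(Ideal.ne_top_iff_one _).2 (notMem_pF.2 ⟨0, by simp, by simp⟩), fun {s f} h => ?_⟩
  by_contra k
  rw [not_or] at k
  obtain ⟨m, hm, k'⟩ := notMem_pF.1 k.2
  obtain ⟨_, ⟨i, hi, rfl⟩, e⟩ := loc_of_mul (notMem_pF.1 k.1) h m hm
  simpa [k' i hi] using e i hi

theorem mem_assoc {I P : Ideal (PR K n)} : P ∈ associatedPrimes (PR K n) (PR K n ⧸ I) ↔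
    P.IsPrime ∧ ∃ g, ∀ s, s ∈ P ↔ s * g ∈ I := by
  rw [AssociatedPrimes.mem_iff, isAssociatedPrime_iff]
  refine and_congr_right fun _ => ?_
  have e : ∀ g s : PR K n, s ∈ (⊥ : Submodule (PR K n) (PR K n ⧸ I)).colon
      {Ideal.Quotient.mk I g} ↔ s * g ∈ I := fun g s => by
    rw [Submodule.mem_colon_singleton, Submodule.mem_bot]
    change Ideal.Quotient.mk I (s * g) = 0 ↔ _
    rw [Ideal.Quotient.eq_zero_iff_mem]
  constructor
  · rintro ⟨x, hx⟩
    obtain ⟨g, rfl⟩ := Ideal.Quotient.mk_surjective x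
    exact ⟨g, fun s => by rw [hx, e]⟩
  · rintro ⟨g, hg⟩
    exact ⟨Ideal.Quotient.mk I g, Ideal.ext fun s => by rw [hg, e]⟩

theorem mem_symb {B : Set (Fin n →₀ ℕ)} {k : ℕ} {f : PR K n} :
    f ∈ symbolicPower (mI K B) k ↔ ∀ m ∈ f.support, ∀ F, Soc B F → Loc (k • B) F m := by
  classical
  rw [mem_symbolicPower, mI_pow]
  constructor
  · rintro h m hm F ⟨w, hw, hw'⟩
    obtain ⟨z, hz, hz'⟩ := clear_loc (B := B) (F := F)
      (T := F.image fun i => w + Finsupp.single i 1) (by simpa using hw')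
    obtain ⟨s, hs, k⟩ := h (pF K F) (mem_assoc.2 ⟨pF_prime F, monomial (w + z) 1, fun s => by
      rw [mul_mono_mem, ← not_iff_not, notMem_pF]
      push Not
      refine exists_congr fun a => and_congr_right fun _ => ⟨fun k b hb k' => hw
        ⟨b, hb, fun i hi => by simpa [k i hi, hz i hi] using k' i⟩, fun k i hi => ?_⟩
      by_contra e
      obtain ⟨b, hb, k'⟩ := hz' _ (Finset.mem_image_of_mem _ hi)
      refine k b hb (k'.trans ?_)
      rw [add_right_comm, add_comm]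
      exact add_le_add (Finsupp.single_le_iff.2 (by omega)) le_rfl⟩)
    exact loc_of_mul (notMem_pF.1 hs) k m hm
  · intro h P hP
    obtain ⟨hp, g, hg⟩ := mem_assoc.1 hP
    set F := Finset.univ.filter fun i => (X i : PR K n) ∈ P with hF
    have nz : ∀ z : Fin n →₀ ℕ, (∀ i ∈ F, z i = 0) → monomial z (1 : K) ∉ P := fun z hz k => by
      rw [monomial_eq, C_1, one_mul, Finsupp.prod] at k
      obtain ⟨i, hi, k'⟩ := Ideal.IsPrime.prod_mem_iff.1 k
      exact Finsupp.mem_support_iff.1 hi (hz i (by simpa [hF] using hp.mem_of_pow_mem _ k'))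
    have soc : Soc B F := by
      by_contra e
      obtain ⟨z, hz, k⟩ := clear_loc (B := B) (F := F) (T := g.support) fun m hm => by
        by_contra e'
        refine e ⟨m, e', fun i hi => ?_⟩
        have := (hg _).1 (Finset.mem_filter.1 hi).2
        rw [mul_comm, X, mul_mono_mem] at this
        obtain ⟨b, hb, k⟩ := this m hm
        exact ⟨b, hb, fun j _ => k j⟩
      exact nz z hz ((hg _).2 (by rw [mul_comm, mul_mono_mem]; exact k))
    obtain ⟨z, hz, k⟩ := clear_loc (T := f.support) fun m hm => h m hm F soc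
    exact ⟨_, nz z hz, by rw [mul_comm, mul_mono_mem]; exact k⟩

end Pool.Agent.MP_d6f7e8_al
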