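import Pool.Agent.MP_d6f7e8_al.RH
import Pool.Agent.MP_d6f7e8_al.Sym

/-! Polymatroids with the strong exchange property. -/

namespace Pool.Agent.MP_d6f7e8_al

open Finset Pointwise
open Pool.Agent.Results.MP_d6f7e8_al.K4Counterexample

variable {n : ℕ}

theorem interp {lo hi : Fin n → ℕ} (h : ∀ i, lo i ≤ hi i) {D : ℕ} (h1 : ∑ i, lo i ≤ D)
    (h2 : D ≤ ∑ i, hi i) : ∃ b : Fin n →₀ ℕ, (∀ i, lo i ≤ b i ∧ b i ≤ hi i) ∧ ∑ i, b i = D := by
  induction D, h1 using Nat.le_induction with
  | base => exact ⟨Finsupp.equivFunOnFinite.symm lo, fun i => ⟨le_rfl, h i⟩, rfl⟩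
  | succ D _ ih =>
    obtain ⟨b, k1, k2⟩ := ih (by omega)
    obtain ⟨j, -, hj⟩ := exists_lt_of_sum_lt (s := univ) (f := b) (g := hi) (by omega)
    refine ⟨b + Finsupp.single j 1, fun i => ?_, by simp [sum_add_distrib, k2]⟩
    have := k1 i
    by_cases e : i = j
    · subst e; simp; omega
    · simpa [e] using this

/-- The lattice points of degree `d` of the box between `l` and `a`. -/
def Bx (l a : Fin n → ℕ) (d : ℕ) : Set (Fin n →₀ ℕ) :=
  {b | (∀ i, l i ≤ b i ∧ b i ≤ a i) ∧ ∑ i, b i = d}

theorem nsmul_Bx {l a : Fin n → ℕ} (h : ∀ i, l i ≤ a i) (d k : ℕ) :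
    k • Bx l a d = Bx (fun i => k * l i) (fun i => k * a i) (k * d) := by
  induction k with
  | zero =>
    ext b
    simp only [zero_nsmul, Set.mem_zero, Bx, zero_mul, Set.mem_ofPred_eq]
    exact ⟨by rintro rfl; simp, fun k => Finsupp.ext fun i => Nat.le_zero.1 (k.1 i).2⟩
  | succ k ih =>
    rw [succ_nsmul, ih]
    ext b
    constructor
    · rintro ⟨x, hx, y, hy, rfl⟩
      refine ⟨fun i => ?_, by simp [sum_add_distrib, hx.2, hy.2, add_mul]⟩
      have := hx.1 i
      have := hy.1 i
      simp only [Finsupp.add_apply, add_mul, one_mul] at *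
      omega
    · rintro ⟨h1, h2⟩
      have h3 : ∀ i, k * l i + l i ≤ b i ∧ b i ≤ k * a i + a i ∧ k * l i ≤ k * a i := fun i => by
        simpa [add_mul, Nat.mul_le_mul_left k (h i)] using h1 i
      obtain ⟨y, k1, k2⟩ := interp (lo := fun i => max (l i) (b i - k * a i))
        (hi := fun i => min (a i) (b i - k * l i)) (D := d)
        (fun i => by have := h3 i; have := h i; omega) (by
          refine Nat.le_of_mul_le_mul_left ?_ k.succ_pos
          rw [← h2, mul_sum]
          refine sum_le_sum fun i _ => ?_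
          obtain ⟨p, q, -⟩ := h3 i
          rcases le_total (l i) (b i - k * a i) with e | e
          · rw [max_eq_right e]
            rcases le_total (k * a i) (b i) with e' | e'
            · obtain ⟨c, hc⟩ := Nat.exists_eq_add_of_le e'
              have : k * c ≤ k * a i := Nat.mul_le_mul_left k (by omega)
              rw [hc, Nat.add_sub_cancel_left, Nat.succ_mul]
              omega
            · simp [Nat.sub_eq_zero_of_le e']
          · rw [max_eq_left e, Nat.succ_mul]; exact p) (by
          refine Nat.le_of_mul_le_mul_left ?_ k.succ_pos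
          rw [← h2, mul_sum]
          refine sum_le_sum fun i _ => ?_
          obtain ⟨p, q, -⟩ := h3 i
          rcases le_total (a i) (b i - k * l i) with e | e
          · rw [min_eq_left e, Nat.succ_mul]; exact q
          · obtain ⟨c, hc⟩ := Nat.exists_eq_add_of_le (show k * l i ≤ b i by omega)
            have : k * l i ≤ k * c := Nat.mul_le_mul_left k (by omega)
            rw [min_eq_right e, hc, Nat.add_sub_cancel_left, Nat.succ_mul]
            omega)
      have e : b - y + y = b := tsub_add_cancel_of_le fun i => by have := k1 i; omega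
      refine ⟨b - y, ⟨fun i => ?_, ?_⟩, y, ⟨fun i => by have := k1 i; omega, k2⟩, e⟩
      · have := k1 i
        have := h3 i
        simp only [Finsupp.tsub_apply]
        omega
      · have : ∑ i, (b - y + y) i = (k + 1) * d := by rw [e, h2]
        simp only [Finsupp.add_apply, sum_add_distrib, k2, add_mul, one_mul] at this
        omega

theorem loc_Bx {l a : Fin n → ℕ} {d c : ℕ} (h : ∀ i, l i ≤ a i) (hd : ∑ i, l i ≤ d)
    (hc : ∑ i, a i = d + c) (F : Finset (Fin n)) (m : Fin n →₀ ℕ) :
    Loc (Bx l a d) F m ↔ (∀ i ∈ F, l i ≤ m i) ∧ ∑ i ∈ F, (a i - m i) ≤ c := by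
  constructor
  · rintro ⟨b, ⟨h1, h2⟩, h3⟩
    refine ⟨fun i hi => (h1 i).1.trans (h3 i hi), ?_⟩
    have e : ∑ i, (a i - b i) + ∑ i, b i = ∑ i, a i := by
      rw [← sum_add_distrib]; exact sum_congr rfl fun i _ => Nat.sub_add_cancel (h1 i).2
    have e1 : ∑ i ∈ F, (a i - m i) ≤ ∑ i ∈ F, (a i - b i) :=
      sum_le_sum fun i hi => Nat.sub_le_sub_left (h3 i hi) _
    have e2 : ∑ i ∈ F, (a i - b i) ≤ ∑ i, (a i - b i) := sum_le_sum_of_subset (subset_univ _)
    omega
  · rintro ⟨h1, h2⟩
    obtain ⟨b, k1, k2⟩ := interp (lo := l) (hi := fun i => a i - if i ∈ F then a i - m i else 0)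
      (D := d) (fun i => by
        have := h i
        split_ifs with e
        · have := h1 i e; omega
        · omega) hd (by
        rw [sum_tsub_distrib _ fun i _ => by split_ifs <;> omega, sum_ite_mem, univ_inter]
        omega)
    refine ⟨b, ⟨fun i => by have := k1 i; omega, k2⟩, fun i hi => ?_⟩
    have := k1 i
    rw [if_pos hi] at this
    omega

theorem sum_single_sub {a : Fin n → ℕ} {F : Finset (Fin n)} (w : Fin n →₀ ℕ) {i : Fin n}
    (hi : i ∈ F) : ∑ x ∈ F, (a x - (w + Finsupp.single i 1 : Fin n →₀ ℕ) x) =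
      ∑ x ∈ F, (a x - w x) - if w i < a i then 1 else 0 := by
  rw [← add_sum_erase F _ hi, ← add_sum_erase F _ hi,
    sum_congr rfl (g := fun x => a x - w x) fun x hx => by simp [ne_of_mem_erase hx]]
  simp only [Finsupp.add_apply, Finsupp.single_eq_same]
  split_ifs <;> omega

theorem symb_Bx {l a : Fin n → ℕ} {d c : ℕ} (h : ∀ i, l i ≤ a i) (hd : ∑ i, l i ≤ d)
    (hc : ∑ i, a i = d + c) (hl : ∀ i, a i ≤ l i + c) (k : ℕ) (m : Fin n →₀ ℕ) :
    (∀ F, Soc (Bx l a d) F → Loc (k • Bx l a d) F m) ↔ (∀ i, k * l i ≤ m i) ∧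
      ∀ F : Finset (Fin n), F.card ≤ c + 1 → ∑ i ∈ F, (k * a i - m i) ≤ k * c := by
  have L := loc_Bx (c := k * c) (d := k * d) (fun i => Nat.mul_le_mul_left k (h i))
    (by rw [← mul_sum]; exact Nat.mul_le_mul_left k hd) (by rw [← mul_sum, hc, mul_add])
  simp only [nsmul_Bx h, L, Soc, loc_Bx h hd hc]
  constructor
  · intro H
    have h1 : ∀ i, k * l i ≤ m i := fun i => by
      rcases Nat.eq_zero_or_pos (l i) with e | e
      · simp [e]
      · refine (H {i} ⟨Finsupp.single i (l i - 1), by simp; omega, ?_⟩).1 i (mem_singleton_self _)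
        have := hl i
        simp
        omega
    refine ⟨h1, fun F hF => ?_⟩
    rw [← sum_filter_of_ne (p := fun i => l i < a i) fun i _ e => by
      by_contra p
      have := h1 i
      rw [le_antisymm (h i) (not_lt.1 p)] at this
      omega]
    set G := F.filter fun i => l i < a i with hG
    by_cases e : ∑ i ∈ G, (a i - l i) ≤ c
    · refine le_trans ?_ (Nat.mul_le_mul_left k e)
      rw [mul_sum]
      exact sum_le_sum fun i _ => by rw [Nat.mul_sub]; exact Nat.sub_le_sub_left (h1 i) _
    · have g : ∀ i ∈ G, l i < a i := fun i hi => (mem_filter.1 hi).2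
      obtain ⟨y, k1, k2⟩ := interp (lo := fun i => if i ∈ G then 1 else 0)
        (hi := fun i => if i ∈ G then a i - l i else 0) (D := c + 1)
        (fun i => by
          split_ifs with p
          · have := g i p; omega
          · rfl)
        (by simpa using (card_filter_le _ _).trans hF) (by rw [sum_ite_mem, univ_inter]; omega)
      have k3 : ∀ i ∈ G, 1 ≤ y i ∧ y i ≤ a i - l i := fun i hi => by simpa [hi] using k1 i
      have k4 : ∑ i ∈ G, (a i - (Finsupp.equivFunOnFinite.symm a - y) i) = c + 1 := by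
        rw [← k2, ← sum_subset (subset_univ G) fun i _ hi => by simpa [hi] using k1 i]
        refine sum_congr rfl fun i hi => ?_
        have := k3 i hi
        simp
        omega
      refine (H G ⟨Finsupp.equivFunOnFinite.symm a - y, fun p => by omega, fun i hi =>
        ⟨fun x hx => ?_, ?_⟩⟩).2
      · have := k3 x hx
        simp
        omega
      · have := k3 i hi
        rw [sum_single_sub _ hi, k4, if_pos (by simp; omega)]
        omega
  · rintro ⟨h1, h2⟩ F ⟨w, k1, k2⟩
    refine ⟨fun i _ => h1 i, h2 F ?_⟩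
    by_cases e : ∀ i ∈ F, l i ≤ w i
    · have p : c < ∑ i ∈ F, (a i - w i) := not_le.1 fun p => k1 ⟨e, p⟩
      have q : ∀ i ∈ F, w i < a i ∧ ∑ i ∈ F, (a i - w i) ≤ c + 1 := fun i hi => by
        have := (k2 i hi).2
        rw [sum_single_sub _ hi] at this
        split_ifs at this <;> omega
      rcases F.eq_empty_or_nonempty with rfl | ⟨i, hi⟩
      · simp
      · refine le_trans ?_ (q i hi).2
        rw [card_eq_sum_ones]
        exact sum_le_sum fun x hx => by have := q x hx; omega
    · push Not at e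
      obtain ⟨i, hi, e⟩ := e
      refine le_trans (card_le_one.2 ?_) (by omega : 1 ≤ c + 1)
      have : ∀ x ∈ F, x = i := fun x hx => by
        by_contra p
        have := (k2 x hx).1 i hi
        simp [p] at this
        omega
      exact fun x hx y hy => (this x hx).trans (this y hy).symm

theorem lev_Bx (l a : Fin n → ℕ) (r C : ℕ) :
    Lev (fun i => (a i : ℤ)) (fun t : Option (Fin n) => t.elim univ fun i => {i})
      fun t m => t.elim (∀ F : Finset (Fin n), F.card ≤ r → ∑ i ∈ F, (a i - m i) ≤ C)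
        fun i => l i ≤ m i := by
  refine ⟨?_, ?_, ?_⟩
  · rintro (_ | t) (_ | t')
    exacts [.inl subset_rfl, .inr (.inl (subset_univ _)), .inl (subset_univ _), by
      by_cases e : t = t' <;> simp [e]]
  · rintro (_ | t) u v p q
    · exact fun F hF => le_trans
        (sum_le_sum fun i _ => Nat.sub_le_sub_left (q i (mem_univ _)) _) (p F hF)
    · exact le_trans p (q t (mem_singleton_self _))
  · rintro (_ | t) u i x p q r k k'
    · have ne : i ≠ x := by rintro rfl; omega
      intro F hF
      by_cases hx : x ∈ F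
      · by_cases hi : i ∈ F
        · have hi' := mem_erase.2 ⟨ne, hi⟩
          have := r F hF
          rw [← add_sum_erase F _ hx, ← add_sum_erase _ _ hi'] at this ⊢
          rw [sum_congr rfl (g := fun y => a y - u y) fun y hy => by
            rw [mv_apply ne, if_neg (ne_of_mem_erase hy),
              if_neg (ne_of_mem_erase (mem_of_mem_erase hy))]]
          simp only [mv_apply ne, if_true, if_neg ne.symm]
          omega
        · have hi' : i ∉ F.erase x := fun e => hi (mem_of_mem_erase e)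
          have := r (insert i (F.erase x)) (by
            rw [card_insert_of_notMem hi', card_erase_add_one hx]; exact hF)
          rw [sum_insert hi'] at this
          rw [← add_sum_erase F _ hx, sum_congr rfl (g := fun y => a y - u y) fun y hy => by
            rw [mv_apply ne, if_neg (by rintro rfl; exact hi' hy), if_neg (ne_of_mem_erase hy)]]
          simp only [mv_apply ne, if_true, if_neg ne.symm]
          omega
      · refine le_trans (sum_le_sum fun y hy => Nat.sub_le_sub_left ?_ _) (r F hF)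
        rw [mv_apply ne]
        split_ifs <;> subst_vars <;> first | omega | exact absurd hy hx
    · rw [mem_singleton.1 p, mem_singleton.1 q] at k'
      omega

/-- Strong exchange gives a box. -/
theorem box_of_strong {B : Finset (Fin n →₀ ℕ)} {d : ℕ} (hn : B.Nonempty)
    (hd : ∀ u ∈ B, ∑ i, u i = d)
    (hs : ∀ u ∈ B, ∀ v ∈ B, ∀ i j, v i < u i → u j < v j → mv u j i ∈ B) :
    (B : Set (Fin n →₀ ℕ)) = Bx (fun i => B.inf' hn fun u => u i) (fun i => B.sup' hn fun u => u i)
      d := by
  have lt : ∀ u v : Fin n →₀ ℕ, ∑ i, u i = d → ∑ i, v i = d → ∀ i, v i < u i →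
      ∃ j, u j < v j := fun u v p q i k =>
    exists_lt_of_ne (by rw [Finsupp.degree_eq_sum, Finsupp.degree_eq_sum, p, q])
      (by rintro rfl; omega)
  have two : ∀ w ∈ B, ∀ i j N, ∀ w' ∈ B, w' i = N → w j < w' j →
      ∃ z ∈ B, z i ≤ w i ∧ w' j ≤ z j ∨ i = j := fun w hw i j N => by
    induction N using Nat.strong_induction_on with
    | _ N ih =>
    intro w' hw' hN k
    by_cases e : i = j
    · exact ⟨w, hw, .inr e⟩
    by_cases p : w' i ≤ w i
    · exact ⟨w', hw', .inl ⟨p, le_rfl⟩⟩
    obtain ⟨x, hx⟩ := lt w' w (hd _ hw') (hd _ hw) i (by omega)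
    have ne : x ≠ i := by rintro rfl; omega
    have q : mv w' x i j = w' j := by
      rw [mv_apply ne, if_neg (by rintro rfl; omega), if_neg (Ne.symm e)]
    rw [← q]
    exact ih _ (by rw [mv_apply ne, if_neg ne.symm, if_pos rfl]; omega) _
      (hs w' hw' w hw i x (by omega) hx) rfl (by omega)
  ext u
  refine ⟨fun hu => ⟨fun i => ⟨inf'_le (fun u : Fin n →₀ ℕ => u i) hu,
    le_sup' (fun u : Fin n →₀ ℕ => u i) hu⟩, hd u hu⟩, fun ⟨h1, h2⟩ => ?_⟩
  obtain ⟨v, hv, hm⟩ := B.exists_min_image (fun v => ∑ x, (u x - v x)) hn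
  by_contra k
  have ne : v ≠ u := by rintro rfl; exact k hv
  obtain ⟨j, hj⟩ := exists_lt_of_ne (u := u) (v := v)
    (by rw [Finsupp.degree_eq_sum, Finsupp.degree_eq_sum, h2, hd v hv]) ne
  obtain ⟨i, hi⟩ := lt u v h2 (hd v hv) j hj
  have ij : j ≠ i := by rintro rfl; omega
  obtain ⟨w, hw, p⟩ := (inf'_le_iff hn).1 (h1 i).1
  obtain ⟨w', hw', q⟩ := (le_sup'_iff hn).1 (h1 j).2
  obtain ⟨z, hz, p', q'⟩ : ∃ z ∈ B, z i < v i ∧ v j < z j := by
    by_cases e : w j < w' j
    · obtain ⟨z, hz, r | r⟩ := two w hw i j _ w' hw' rfl e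
      · exact ⟨z, hz, by omega, by omega⟩
      · exact absurd r.symm ij
    · exact ⟨w, hw, by omega, by omega⟩
  refine absurd (hm _ (hs v hv z hz i j p' q')) (not_le.2 ?_)
  refine sum_lt_sum (fun x _ => ?_) ⟨j, mem_univ _, ?_⟩
  · rw [mv_apply ij]; split_ifs <;> subst_vars <;> omega
  · rw [mv_apply ij, if_pos rfl]; omega

theorem cwl_strong {K : Type*} [Field K] {B : Finset (Fin n →₀ ℕ)} (hB : IsDiscretePolymatroid B)
    (hs : ∀ u ∈ B, ∀ v ∈ B, ∀ i j, v i < u i → u j < v j → mv u j i ∈ B) (k : ℕ) :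
    IsComponentwiseLinear (symbolicPower (mI K (B : Set (Fin n →₀ ℕ))) k) := by
  obtain ⟨hn, hd, -⟩ := hB
  obtain ⟨u, hu⟩ := id hn
  have e := box_of_strong hn (fun v hv => hd v hv u hu) hs
  set l := fun i => B.inf' hn fun u => u i with hl
  set a := fun i => B.sup' hn fun u => u i with ha
  have h0 : ∀ v ∈ B, v ∈ Bx l a (∑ i, u i) := fun v hv => e ▸ mem_coe.2 hv
  have h1 := (h0 u hu).1
  obtain ⟨c, hc⟩ := Nat.exists_eq_add_of_le (sum_le_sum fun i (_ : i ∈ univ) => (h1 i).2)
  have h2 : ∀ i, l i ≤ a i := fun i => (h1 i).1.trans (h1 i).2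
  have h3 : ∑ i, l i ≤ ∑ i, u i := sum_le_sum fun i _ => (h1 i).1
  refine (lev_Bx (fun i => k * l i) (fun i => k * a i) (c + 1) (k * c)).cwl fun f => ?_
  rw [mem_symb, e]
  refine forall₂_congr fun m _ => ?_
  rw [symb_Bx h2 h3 hc fun i => ?_, Option.forall, and_comm]
  · rfl
  · obtain ⟨w, hw, p⟩ := (inf'_le_iff hn).1 (le_refl (l i))
    have := ((loc_Bx h2 h3 hc {i} w).1 ⟨w, h0 w hw, fun _ _ => le_rfl⟩).2
    rw [sum_singleton] at this
    omega

end Pool.Agent.MP_d6f7e8_al
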