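import Pool.Agent.MP_d6f7e8_al.RH
import Pool.Agent.MP_d6f7e8_al.Sym

/-! Matching-matroidal ideals of laminar families. -/

namespace Pool.Agent.MP_d6f7e8_al

open Finset Pointwise MvPolynomial
open Pool.Agent.Results.MP_d6f7e8_al.K4Counterexample

variable {n : ℕ}

/-- `C` meets the support of every member of `B`. -/
def Blk (B : Set (Fin n →₀ ℕ)) (C : Finset (Fin n)) : Prop := ∀ b ∈ B, ∃ i ∈ C, 0 < b i

theorem le_sum_of_blk {B : Set (Fin n →₀ ℕ)} {C : Finset (Fin n)} (h : Blk B C) (k : ℕ) :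
    ∀ b ∈ k • B, k ≤ ∑ i ∈ C, b i := by
  induction k with
  | zero => exact fun _ _ => Nat.zero_le _
  | succ k ih =>
    rw [succ_nsmul]
    rintro _ ⟨x, hx, y, hy, rfl⟩
    obtain ⟨i, hi, p⟩ := h y hy
    have := ih x hx
    have := single_le_sum (f := fun i => y i) (fun _ _ => Nat.zero_le _) hi
    simp only [Finsupp.add_apply, sum_add_distrib]
    omega

theorem loc_of_le_sum {B : Set (Fin n →₀ ℕ)} {F : Finset (Fin n)}
    (h : ∀ i ∈ F, Loc B F (Finsupp.single i 1)) (k : ℕ) :
    ∀ m : Fin n →₀ ℕ, k ≤ ∑ i ∈ F, m i → Loc (k • B) F m := by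
  induction k with
  | zero => exact fun m _ => ⟨0, by simp, fun _ _ => Nat.zero_le _⟩
  | succ k ih =>
    intro m hm
    obtain ⟨i, hi, p⟩ := exists_ne_zero_of_sum_ne_zero (s := F) (f := fun i => m i) (by omega)
    have e : m - Finsupp.single i 1 + Finsupp.single i 1 = m :=
      tsub_add_cancel_of_le (Finsupp.single_le_iff.2 (by omega))
    obtain ⟨x, hx, q⟩ := ih (m - Finsupp.single i 1) (by
      have o : ∑ x ∈ F, (Finsupp.single i 1 : Fin n →₀ ℕ) x = 1 := by
        simp [Finsupp.single_apply, hi]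
      rw [← e] at hm
      simp only [Finsupp.add_apply, sum_add_distrib, o] at hm
      exact Nat.le_of_succ_le_succ hm)
    obtain ⟨y, hy, r⟩ := h i hi
    refine ⟨x + y, by rw [succ_nsmul]; exact Set.add_mem_add hx hy, fun j hj => ?_⟩
    rw [← e]
    exact add_le_add (q j hj) (r j hj)

theorem symb_sqfree {B : Set (Fin n →₀ ℕ)} (hB : ∀ b ∈ B, ∀ i, b i ≤ 1) (k : ℕ)
    (m : Fin n →₀ ℕ) : (∀ F, Soc B F → Loc (k • B) F m) ↔ ∀ C, Blk B C → k ≤ ∑ i ∈ C, m i := by
  constructor
  · intro h C hC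
    obtain ⟨F, hF, p⟩ := exists_minimal_le_of_wellFoundedLT (Blk B) C hC
    obtain ⟨b, hb, q⟩ := h F ⟨0, fun ⟨b, hb, q⟩ => by
      obtain ⟨i, hi, r⟩ := p.1 b hb
      exact absurd (q i hi) (by simpa using r.ne'), fun i hi => by
        have : ¬Blk B (F.erase i) := fun r => by simpa using p.2 r (erase_subset _ _) hi
        simp only [Blk, not_forall, not_exists, not_and, not_lt] at this
        obtain ⟨b, hb, r⟩ := this
        refine ⟨b, hb, fun j hj => ?_⟩
        by_cases e : j = i
        · simpa [e] using hB b hb i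
        · exact (r j (mem_erase.2 ⟨e, hj⟩)).trans (Nat.zero_le _)⟩
    exact (le_sum_of_blk p.1 k b hb).trans ((sum_le_sum q).trans (sum_le_sum_of_subset hF))
  · rintro h F ⟨w, h1, h2⟩
    have z : ∀ i ∈ F, w i = 0 := fun i hi => by
      by_contra e
      obtain ⟨b, hb, q⟩ := h2 i hi
      refine h1 ⟨b, hb, fun j hj => ?_⟩
      by_cases r : j = i
      · have := hB b hb j
        subst r
        omega
      · simpa [r] using q j hj
    refine loc_of_le_sum (fun i hi => ?_) k m (h F fun b hb => ?_)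
    · obtain ⟨b, hb, q⟩ := h2 i hi
      exact ⟨b, hb, fun j hj => by simpa [z j hj] using q j hj⟩
    · by_contra e
      push Not at e
      exact h1 ⟨b, hb, fun j hj => (e j hj).trans (Nat.zero_le _)⟩

variable {d : ℕ} {A : Fin d → Finset (Fin n)}

theorem hall_lam (lam : ∀ s t, A s ⊆ A t ∨ A t ⊆ A s ∨ Disjoint (A s) (A t)) (C : Finset (Fin n)) :
    (∃ f : Fin d → Fin n, Function.Injective f ∧ ∀ s, f s ∈ A s \ C) ↔
      ∀ t, (univ.filter fun s => A s ⊆ A t).card ≤ (A t \ C).card := by
  rw [← all_card_le_biUnion_card_iff_exists_injective]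
  refine ⟨fun h t => (h _).trans (card_le_card (biUnion_subset.2 fun s hs =>
    sdiff_subset_sdiff (mem_filter.1 hs).2 subset_rfl)), fun h T => ?_⟩
  induction T using Finset.strongInduction with
  | H T ih =>
  rcases T.eq_empty_or_nonempty with rfl | ne
  · simp
  obtain ⟨t, ht, mx⟩ := T.exists_max_image (fun s => (A s).card) ne
  have h1 := ih (T.filter fun s => ¬A s ⊆ A t) (filter_ssubset.2 ⟨t, ht, by simp⟩)
  have h2 := card_filter_add_card_filter_not (s := T) fun s => A s ⊆ A t
  have h3 : (T.filter fun s => A s ⊆ A t).card ≤ (A t \ C).card :=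
    (card_le_card (filter_subset_filter _ (subset_univ _))).trans (h t)
  have h4 : Disjoint (A t \ C) ((T.filter fun s => ¬A s ⊆ A t).biUnion fun s => A s \ C) := by
    refine disjoint_biUnion_right _ _ _ |>.2 fun s hs => ?_
    obtain ⟨p, q⟩ := mem_filter.1 hs
    rcases lam s t with r | r | r
    · exact absurd r q
    · exact absurd (eq_of_subset_of_card_le r (mx s p)).ge q
    · exact r.symm.mono sdiff_subset sdiff_subset
  refine le_trans (by omega) ((card_union_of_disjoint h4).ge.trans (card_le_card ?_))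
  exact union_subset (subset_biUnion_of_mem (fun s => A s \ C) ht)
    (biUnion_subset_biUnion_of_subset_left _ (filter_subset _ _))

theorem lev_lam (lam : ∀ s t, A s ⊆ A t ∨ A t ⊆ A s ∨ Disjoint (A s) (A t)) (q : Fin d → ℕ)
    (k : ℕ) : Lev 0 A fun t m => ∀ C ⊆ A t, (A t).card < q t + C.card → k ≤ ∑ i ∈ C, m i := by
  refine ⟨lam, fun t u v p r C hC e => (p C hC e).trans (sum_le_sum fun i hi => r i (hC hi)),
    fun t u i l hi hl p r r' C hC e => ?_⟩
  simp only [Pi.zero_apply, sub_zero, Nat.cast_lt] at r'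
  have ne : i ≠ l := by rintro rfl; omega
  by_cases a : l ∈ C
  · by_cases b : i ∈ C
    · have b' := mem_erase.2 ⟨ne, b⟩
      have := p C hC e
      rw [← add_sum_erase C _ a, ← add_sum_erase _ _ b'] at this ⊢
      rw [sum_congr rfl (g := fun y => u y) fun y hy => by
        rw [mv_apply ne, if_neg (ne_of_mem_erase hy),
          if_neg (ne_of_mem_erase (mem_of_mem_erase hy))]]
      simp only [mv_apply ne, if_true, if_neg ne.symm]
      omega
    · have b' : i ∉ C.erase l := fun e => b (mem_of_mem_erase e)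
      have := p (insert i (C.erase l)) (insert_subset hi ((erase_subset _ _).trans hC))
        (by rw [card_insert_of_notMem b', card_erase_add_one a]; exact e)
      rw [sum_insert b'] at this
      rw [← add_sum_erase C _ a, sum_congr rfl (g := fun y => u y) fun y hy => by
        rw [mv_apply ne, if_neg (by rintro rfl; exact b' hy), if_neg (ne_of_mem_erase hy)]]
      simp only [mv_apply ne, if_true, if_neg ne.symm]
      omega
  · refine (p C hC e).trans (sum_le_sum fun y hy => ?_)
    rw [mv_apply ne]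
    split_ifs <;> subst_vars <;> first | omega | exact absurd hy a

theorem cwl_lam {K : Type*} [Field K]
    (lam : ∀ s t, A s ⊆ A t ∨ A t ⊆ A s ∨ Disjoint (A s) (A t)) (k : ℕ) :
    IsComponentwiseLinear (symbolicPower (Ideal.span {p : PR K n | ∃ f : Fin d → Fin n,
      Function.Injective f ∧ (∀ s, f s ∈ A s) ∧ p = ∏ s, X (f s)}) k) := by
  set B : Set (Fin n →₀ ℕ) := {b | ∃ f : Fin d → Fin n, Function.Injective f ∧ (∀ s, f s ∈ A s) ∧
    b = ∑ s, Finsupp.single (f s) 1} with hB
  have e : ∀ f : Fin d → Fin n, (∏ s, X (f s) : PR K n) =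
      monomial (∑ s, Finsupp.single (f s) 1) 1 := fun f => by
    rw [monomial_sum_one]; rfl
  have e' : {p : PR K n | ∃ f : Fin d → Fin n, Function.Injective f ∧ (∀ s, f s ∈ A s) ∧
      p = ∏ s, X (f s)} = (fun v => monomial v (1 : K)) '' B := by
    ext p
    exact ⟨fun ⟨f, a, b, c⟩ => ⟨_, ⟨f, a, b, rfl⟩, (c.trans (e f)).symm⟩,
      fun ⟨_, ⟨f, a, b, c⟩, c'⟩ => ⟨f, a, b, by rw [e, ← c, ← c']⟩⟩
  have ap : ∀ (f : Fin d → Fin n) i, (∑ s, Finsupp.single (f s) 1 : Fin n →₀ ℕ) i =
      (univ.filter fun s => f s = i).card := fun f i => by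
    simp [Finsupp.single_apply]
  have blk : ∀ C, Blk B C ↔ ∃ t, (A t \ C).card < (univ.filter fun s => A s ⊆ A t).card := by
    intro C
    rw [← not_iff_not, not_exists]
    simp only [not_lt]
    rw [← hall_lam lam]
    simp only [Blk, not_forall, not_exists, not_and, not_lt, mem_sdiff]
    constructor
    · rintro ⟨_, ⟨f, a, b, rfl⟩, c⟩
      refine ⟨f, a, fun s => ⟨b s, fun p => ?_⟩⟩
      have := c _ p
      rw [ap, Nat.le_zero, card_eq_zero, filter_eq_empty_iff] at this
      exact this (mem_univ s) rfl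
    · rintro ⟨f, a, b⟩
      refine ⟨_, ⟨f, a, fun s => (b s).1, rfl⟩, fun i hi => ?_⟩
      rw [ap, Nat.le_zero, card_eq_zero, filter_eq_empty_iff]
      rintro s - rfl
      exact (b s).2 hi
  rw [e']
  refine (lev_lam lam (fun t => (univ.filter fun s => A s ⊆ A t).card) k).cwl fun f => ?_
  rw [mem_symb]
  refine forall₂_congr fun m _ => ?_
  rw [symb_sqfree]
  · simp only [blk]
    refine ⟨fun h t C hC p => h C ⟨t, ?_⟩, fun h C ⟨t, p⟩ =>
      (h t (A t ∩ C) inter_subset_left ?_).trans (sum_le_sum_of_subset inter_subset_right)⟩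
    · have := card_sdiff_add_card_eq_card hC
      omega
    · have := card_sdiff_add_card_inter (A t) C
      omega
  · rintro _ ⟨f, a, -, rfl⟩ i
    rw [ap]
    exact card_le_one.2 fun x hx y hy => a ((mem_filter.1 hx).2.trans (mem_filter.1 hy).2.symm)

end Pool.Agent.MP_d6f7e8_al
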