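import Pool.Agent.MP_d6f7e8_al.Res

/-! A laminar family of conditions closed under levelling moves has linear quotients. -/

namespace Pool.Agent.MP_d6f7e8_al

open Finset

variable {n : ℕ}

/-- Move one unit from `l` to `i`. -/
noncomputable def mv (u : Fin n →₀ ℕ) (i l : Fin n) : Fin n →₀ ℕ :=
  u - Finsupp.single l 1 + Finsupp.single i 1

theorem mv_apply {i l : Fin n} (h : i ≠ l) (u : Fin n →₀ ℕ) (x : Fin n) :
    mv u i l x = if x = i then u i + 1 else if x = l then u l - 1 else u x := by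
  by_cases a : x = i
  · subst a; simp [mv, h]
  · by_cases b : x = l
    · subst b; simp [mv, a]
    · simp [mv, a, b]

theorem sum_mv {i l : Fin n} (h : i ≠ l) (u : Fin n →₀ ℕ) (f : Fin n → ℕ → ℤ) :
    ∑ x, f x (mv u i l x) =
      ∑ x, f x (u x) + (f i (u i + 1) - f i (u i)) + (f l (u l - 1) - f l (u l)) := by
  have : ∀ x, f x (mv u i l x) = f x (u x) + (if x = i then f i (u i + 1) - f i (u i) else 0) +
      if x = l then f l (u l - 1) - f l (u l) else 0 := fun x => by
    rw [mv_apply h]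
    by_cases a : x = i
    · subst a; simp [h]
    · by_cases b : x = l
      · subst b; simp [a]
      · simp [a, b]
  simp [this, sum_add_distrib]

theorem mv_degree {i l : Fin n} {u : Fin n →₀ ℕ} (h : 0 < u l) : (mv u i l).degree = u.degree := by
  have : u - Finsupp.single l 1 + Finsupp.single l 1 = u :=
    tsub_add_cancel_of_le (Finsupp.single_le_iff.2 h)
  conv_rhs => rw [← this]
  simp [mv]

/-- The potential. -/
def pot (s : Fin n → ℤ) (u : Fin n →₀ ℕ) : ℤ := ∑ x, ((n + 1) * (u x - s x) ^ 2 + x * u x)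

/-- Its increments. -/
def inc (s : Fin n → ℤ) (x : Fin n) (t : ℤ) : ℤ := (n + 1) * (2 * (t - s x) + 1) + x

theorem pot_mv (s : Fin n → ℤ) {i l : Fin n} (h : i ≠ l) {u : Fin n →₀ ℕ} (hl : 0 < u l) :
    pot s (mv u i l) = pot s u + inc s i (u i) - inc s l (u l - 1) := by
  have := sum_mv h u fun x t => (n + 1) * ((t : ℤ) - s x) ^ 2 + x * t
  rw [pot, this, Nat.cast_sub hl, pot, inc, inc]
  push_cast
  ring

theorem inc_le {s : Fin n → ℤ} {i l : Fin n} {a b : ℤ} (h : inc s i a ≤ inc s l b) :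
    a - s i ≤ b - s l := by
  by_contra k
  have h1 : (l : ℤ) < n := by exact_mod_cast l.2
  have h2 : (0 : ℤ) ≤ i := by positivity
  have h3 : (0 : ℤ) ≤ n := by positivity
  unfold inc at h
  nlinarith [mul_le_mul_of_nonneg_left (show b - s l + 1 ≤ a - s i by omega) h3]

theorem inc_ne {s : Fin n → ℤ} {i l : Fin n} {a b : ℤ} (h : i ≠ l) : inc s i a ≠ inc s l b := by
  intro k
  have e : a - s i = b - s l := le_antisymm (inc_le k.le) (inc_le k.ge)
  unfold inc at k
  rw [e] at k
  exact h (Fin.ext (by omega))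

theorem inc_mono (s : Fin n → ℤ) (i : Fin n) {a b : ℤ} (h : a ≤ b) : inc s i a ≤ inc s i b := by
  have h3 : (0 : ℤ) ≤ n := by positivity
  unfold inc
  nlinarith

/-- A family of monotone conditions, each closed under levelling moves inside its set. -/
structure Lev {τ : Type} (s : Fin n → ℤ) (A : τ → Finset (Fin n))
    (V : τ → (Fin n →₀ ℕ) → Prop) : Prop where
  lam : ∀ t t', A t ⊆ A t' ∨ A t' ⊆ A t ∨ Disjoint (A t) (A t')
  mono : ∀ t u v, V t u → (∀ i ∈ A t, u i ≤ v i) → V t v
  rh : ∀ t u i l, i ∈ A t → l ∈ A t → V t u → 0 < u l → u i - s i < u l - s l → V t (mv u i l)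

variable {τ : Type} {s : Fin n → ℤ} {A : τ → Finset (Fin n)} {V : τ → (Fin n →₀ ℕ) → Prop}

theorem Lev.fill (H : Lev s A V) {u : Fin n →₀ ℕ} {t : τ} {l0 : Fin n} (h0 : l0 ∈ A t)
    (hb : ¬V t (u - Finsupp.single l0 1)) (N : ℕ) : ∀ w : Fin n →₀ ℕ, ∑ x, (u x - w x) = N →
    (∀ i ∈ A t, ∀ l ∈ A t, u i < w i → w l < u l → inc s l (u l - 1) < inc s i (u i)) →
    (∀ t', A t ⊆ A t' → V t' w) → w l0 < u l0 →
    ∃ w' : Fin n →₀ ℕ, (∀ x ∉ A t, w' x = w x) ∧ (∀ x, u x < w' x → u x < w x) ∧
      (∀ t', A t ⊆ A t' → V t' w') ∧ w'.degree = w.degree ∧ pot s w' < pot s w ∧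
        ∀ x ∈ A t, u x ≤ w' x := by
  induction N using Nat.strong_induction_on with
  | _ N ih =>
  intro w hN nd hv hl
  obtain ⟨i, hi, ki⟩ : ∃ i ∈ A t, u i < w i := by
    by_contra k
    push Not at k
    refine hb (H.mono t w _ (hv t subset_rfl) fun x hx => ?_)
    have := k x hx
    by_cases e : x = l0
    · subst e; simp; omega
    · simpa [e] using this
  have step : ∀ l ∈ A t, w l < u l → l ≠ i ∧ (∀ x ∉ A t, mv w l i x = w x) ∧
      (∀ x, u x < mv w l i x → u x < w x) ∧ (∀ x, mv w l i x < u x → w x < u x) ∧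
      (∀ t', A t ⊆ A t' → V t' (mv w l i)) ∧ (mv w l i).degree = w.degree ∧
      pot s (mv w l i) < pot s w ∧ ∑ x, (u x - mv w l i x) < N := fun l hl kl => by
    have ne : l ≠ i := by rintro rfl; omega
    have a := nd i hi l hl ki kl
    have b := inc_le a.le
    refine ⟨ne, fun x hx => ?_, fun x => ?_, fun x => ?_, fun t' k => ?_, mv_degree (by omega),
      ?_, ?_⟩
    · rw [mv_apply ne, if_neg (by rintro rfl; exact hx hl), if_neg (by rintro rfl; exact hx hi)]
    · rw [mv_apply ne]; split_ifs <;> subst_vars <;> omega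
    · rw [mv_apply ne]; split_ifs <;> subst_vars <;> omega
    · exact H.rh t' w l i (k hl) (k hi) (hv t' k) (by omega) (by omega)
    · rw [pot_mv s ne (by omega)]
      have c := inc_mono s l (show (w l : ℤ) ≤ u l - 1 by omega)
      have d := inc_mono s i (show (u i : ℤ) ≤ w i - 1 by omega)
      omega
    · rw [← hN]
      refine sum_lt_sum (fun x _ => ?_) ⟨l, mem_univ _, ?_⟩
      · rw [mv_apply ne]; split_ifs <;> subst_vars <;> omega
      · rw [mv_apply ne, if_pos rfl]; omega
  have again : ∀ l ∈ A t, w l < u l → mv w l i l0 < u l0 →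
      ∃ w' : Fin n →₀ ℕ, (∀ x ∉ A t, w' x = w x) ∧ (∀ x, u x < w' x → u x < w x) ∧
      (∀ t', A t ⊆ A t' → V t' w') ∧ w'.degree = w.degree ∧ pot s w' < pot s w ∧
        ∀ x ∈ A t, u x ≤ w' x := fun l hl kl k => by
    obtain ⟨-, a1, a2, a3, a4, a5, a6, a7⟩ := step l hl kl
    obtain ⟨w', b1, b2, b3, b4, b5, b6⟩ := ih _ a7 _ rfl
      (fun x hx y hy p q => nd x hx y hy (a2 x p) (a3 y q)) a4 k
    exact ⟨w', fun x hx => (b1 x hx).trans (a1 x hx), fun x p => a2 x (b2 x p), b3, b4.trans a5,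
      b5.trans a6, b6⟩
  by_cases k : ∃ l ∈ A t, l ≠ l0 ∧ w l < u l
  · obtain ⟨l, k1, k2, k3⟩ := k
    refine again l k1 k3 ?_
    rw [mv_apply (step l k1 k3).1, if_neg k2.symm]
    split_ifs <;> subst_vars <;> omega
  · by_cases e : mv w l0 i l0 < u l0
    · exact again l0 h0 hl e
    · obtain ⟨-, a1, a2, a3, a4, a5, a6, -⟩ := step l0 h0 hl
      refine ⟨_, a1, a2, a4, a5, a6, fun x hx => not_lt.1 fun p => ?_⟩
      by_cases q : x = l0
      · exact e (q ▸ p)
      · exact k ⟨x, hx, q, a3 x p⟩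

theorem exists_lt_of_ne {u v : Fin n →₀ ℕ} (h : u.degree = v.degree) (e : v ≠ u) :
    ∃ l, v l < u l := by
  by_contra k
  push Not at k
  rw [Finsupp.degree_eq_sum, Finsupp.degree_eq_sum, sum_eq_sum_iff_of_le fun i _ => k i] at h
  exact e (Finsupp.ext fun i => (h i (mem_univ _)).symm)

theorem Lev.core (H : Lev s A V) {u : Fin n →₀ ℕ} (hu : ∀ t, V t u)
    (top : ∀ l, 0 < u l → ∃ t, l ∈ A t ∧ ¬V t (u - Finsupp.single l 1)) (N : ℕ) :
    ∀ v : Fin n →₀ ℕ, ∑ x, (u x - v x) = N → (∀ t, V t v) → u.degree = v.degree → v ≠ u →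
    (∀ i l, u i < v i → 0 < u l → inc s i (u i) < inc s l (u l - 1) → i ≠ l →
      ¬∀ t, V t (mv u i l)) → pot s u < pot s v := by
  classical
  induction N using Nat.strong_induction_on with
  | _ N ih =>
  intro v hN hv hd ne no
  have ex : ∃ c, ∃ t, (A t).card = c ∧ ∃ l ∈ A t, v l < u l ∧ ¬V t (u - Finsupp.single l 1) := by
    obtain ⟨l, hl⟩ := exists_lt_of_ne hd ne
    obtain ⟨t, k1, k2⟩ := top l (by omega)
    exact ⟨_, t, rfl, l, k1, hl, k2⟩
  obtain ⟨t, ht, l0, h0, h1, h2⟩ := Nat.find_spec ex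
  obtain ⟨w, b1, b2, b3, b4, b5, b6⟩ := H.fill h0 h2 N v hN (fun i hi l hl p q => by
    have il : i ≠ l := by rintro rfl; omega
    refine lt_of_le_of_ne (not_lt.1 fun D => no i l p (by omega) D il fun t' => ?_)
      (inc_ne il.symm)
    have := inc_le D.le
    by_cases a : l ∈ A t'
    · by_cases b : i ∈ A t'
      · exact H.rh t' u i l b a (hu t') (by omega) (by omega)
      · have sub : A t' ⊂ A t := by
          rcases H.lam t t' with c | c | c
          · exact absurd (c hi) b
          · exact ⟨c, fun d => b (d hi)⟩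
          · exact absurd a (disjoint_left.1 c hl)
        have : V t' (u - Finsupp.single l 1) := by
          by_contra c
          exact Nat.find_min ex (ht ▸ card_lt_card sub) ⟨t', rfl, l, a, q, c⟩
        exact H.mono t' _ _ this fun x _ => by simp [mv]
    · refine H.mono t' _ _ (hu t') fun x hx => ?_
      rw [mv_apply il]
      split_ifs <;> subst_vars <;> first | omega | exact absurd hx a) (fun t' _ => hv t') h1
  by_cases e : w = u
  · exact e ▸ b5
  · refine (ih _ ?_ w rfl (fun t' => ?_) (hd.trans b4.symm) e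
      fun i l p => no i l (b2 i p)).trans b5
    · rw [← hN]
      refine sum_lt_sum (fun x _ => ?_) ⟨l0, mem_univ _, by have := b6 l0 h0; omega⟩
      by_cases hx : x ∈ A t
      · have := b6 x hx; omega
      · rw [b1 x hx]
    · rcases H.lam t t' with c | c | c
      · exact b3 t' c
      · exact H.mono t' u w (hu t') fun x hx => b6 x (c hx)
      · exact H.mono t' v w (hv t') fun x hx => (b1 x (disjoint_right.1 c hx)).ge

theorem Lev.cwl (H : Lev s A V) {K : Type*} [Field K] {J : Ideal (PR K n)}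
    (hJ : ∀ f, f ∈ J ↔ ∀ m ∈ f.support, ∀ t, V t m) :
    Results.MP_d6f7e8_al.K4Counterexample.IsComponentwiseLinear J := by
  refine cwl_of_quot (L := {m | ∀ t, V t m}) hJ (pot s) fun u hu v hv hd ne le => ?_
  have H' : Lev s (fun t : Option τ => t.elim univ A)
      fun t w => t.elim (u.degree ≤ w.degree) fun t => V t w := by
    refine ⟨?_, ?_, ?_⟩
    · rintro (_ | t) (_ | t')
      exacts [.inl subset_rfl, .inr (.inl (subset_univ _)), .inl (subset_univ _), H.lam t t']
    · rintro (_ | t) a b p q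
      · refine le_trans p ?_
        rw [Finsupp.degree_eq_sum, Finsupp.degree_eq_sum]
        exact sum_le_sum q
      · exact H.mono t a b p q
    · rintro (_ | t) a i l p q r k k'
      · exact le_trans r (mv_degree k).ge
      · exact H.rh t a i l p q r k k'
  by_contra k
  refine absurd le (not_le.2 (H'.core (by rintro (_ | t); exacts [le_rfl, hu t])
    (fun l hl => ⟨none, mem_univ _, fun p => ?_⟩) _ v rfl
    (by rintro (_ | t); exacts [hd.le, hv t]) hd ne fun i l p q D il r => ?_))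
  · have := mv_degree (i := l) hl
    simp only [mv, map_add, Finsupp.degree_single, Option.elim] at this p
    omega
  · refine k ⟨i, p, mv u i l, fun t => r (some t), mv_degree q, ?_, add_le_add tsub_le_self le_rfl⟩
    rw [pot_mv s il q]
    omega

end Pool.Agent.MP_d6f7e8_al
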