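import Pool.Agent.Results.MP_d6f7e8_al.K4Counterexample

/-! Linear quotients give a linear resolution (horseshoe construction). -/

namespace Pool.Agent.MP_d6f7e8_al

open MvPolynomial Submodule LinearMap Set
open Pool.Agent.Results.MP_d6f7e8_al.K4Counterexample

universe u

variable {K : Type u} [Field K] {n : ℕ}

/-- The polynomial ring. -/
abbrev PR (K : Type u) [Field K] (n : ℕ) : Type u := MvPolynomial (Fin n) K

/-- `N` has generators of degree `d` and a linear resolution of length below `t`. -/
def Lin : ℕ → ∀ {m : Type}, ℕ → Submodule (PR K n) (m → PR K n) → Prop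
  | 0, _, _, N => N = ⊥
  | t + 1, m, d, N => ∃ (ι : Type) (_ : Fintype ι) (g : ι → m → PR K n),
      (∀ a x, (g a x).IsHomogeneous d) ∧ span (PR K n) (range g) = N ∧
        Lin t 1 (ker (Fintype.linearCombination (PR K n) g))

theorem Lin.succ : ∀ {t : ℕ} {m : Type} {d : ℕ} {N : Submodule (PR K n) (m → PR K n)},
    Lin t d N → Lin (t + 1) d N
  | 0, _, _, _, h => ⟨Empty, inferInstance, fun a => a.elim, fun a => a.elim,
      by rw [range_eq_empty, span_empty]; exact h.symm, Subsingleton.elim _ _⟩
  | _ + 1, _, _, _, ⟨ι, i, g, h1, h2, h3⟩ => ⟨ι, i, g, h1, h2, h3.succ⟩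

theorem Lin.mono {t t' : ℕ} {m : Type} {d : ℕ} {N : Submodule (PR K n) (m → PR K n)}
    (h : Lin t d N) (k : t ≤ t') : Lin t' d N := by
  induction k with
  | refl => exact h
  | step _ ih => exact ih.succ

theorem Lin.map {t : ℕ} {m m' : Type} {d : ℕ} {N : Submodule (PR K n) (m → PR K n)}
    (h : Lin t d N) (φ : (m → PR K n) →ₗ[PR K n] (m' → PR K n)) (hφ : Function.Injective φ)
    (hd : ∀ y, (∀ x, (y x).IsHomogeneous d) → ∀ x, (φ y x).IsHomogeneous d) :
    Lin t d (N.map φ) := by
  cases t with
  | zero => rw [show N = ⊥ from h]; exact Submodule.map_bot φ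
  | succ t =>
    obtain ⟨ι, i, g, h1, h2, h3⟩ := h
    refine ⟨ι, i, fun a => φ (g a), fun a => hd _ (h1 a), ?_, ?_⟩
    · rw [← h2, Submodule.map_span, ← range_comp]; rfl
    · convert h3 using 1
      rw [← ker_comp_of_ker_eq_bot _ (ker_eq_bot.2 hφ)]
      congr 1
      ext y x
      simp [Fintype.linearCombination_apply]

theorem hc_mul {a : PR K n} {d : ℕ} (ha : a.IsHomogeneous d) (e : ℕ) (c : PR K n) :
    homogeneousComponent (e + d) (c * a) = homogeneousComponent e c * a := by
  induction c using MvPolynomial.induction_on' with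
  | monomial v r =>
    rw [homogeneousComponent_of_mem ((isHomogeneous_monomial r rfl).mul ha),
      homogeneousComponent_of_mem (isHomogeneous_monomial r rfl)]
    by_cases k : e = v.degree <;> simp [k]
  | add p q hp hq => rw [add_mul, map_add, map_add, hp, hq, add_mul]

theorem lift_lin {m ι : Type} [Fintype ι] {d : ℕ} {a : ι → m → PR K n}
    (ha : ∀ i x, (a i x).IsHomogeneous d) {y : m → PR K n}
    (hy : ∀ x, (y x).IsHomogeneous (1 + d)) (h : y ∈ span (PR K n) (range a)) :
    ∃ c : ι → PR K n, (∀ i, (c i).IsHomogeneous 1) ∧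
      Fintype.linearCombination (PR K n) a c = y := by
  obtain ⟨c, rfl⟩ := (mem_span_range_iff_exists_fun _).1 h
  refine ⟨fun i => homogeneousComponent 1 (c i), fun i => homogeneousComponent_isHomogeneous _ _,
    funext fun x => ?_⟩
  rw [← homogeneousComponent_eq_self (hy x)]
  simp [Fintype.linearCombination_apply, hc_mul (ha _ x)]

theorem lc_sum {m ι κ : Type} [Fintype ι] [Fintype κ] (a : ι → m → PR K n) (b : κ → m → PR K n)
    (s : ι ⊕ κ → PR K n) : Fintype.linearCombination (PR K n) (Sum.elim a b) s =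
      Fintype.linearCombination (PR K n) a (fun i => s (.inl i)) +
        Fintype.linearCombination (PR K n) b (fun i => s (.inr i)) := by
  simp [Fintype.linearCombination_apply]

theorem lc_mem {m ι : Type} [Fintype ι] (a : ι → m → PR K n) (s : ι → PR K n) :
    Fintype.linearCombination (PR K n) a s ∈ span (PR K n) (range a) :=
  (mem_span_range_iff_exists_fun _).2 ⟨s, rfl⟩

/-- Extension by zero. -/
noncomputable def ext0 (ι κ : Type) : (ι → PR K n) →ₗ[PR K n] (ι ⊕ κ → PR K n) where
  toFun s := Sum.elim s 0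
  map_add' s t := by ext1 x; cases x <;> simp
  map_smul' c s := by ext1 x; cases x <;> simp

theorem horseshoe : ∀ (t : ℕ) {m κ : Type} [Fintype κ] {d : ℕ}
    {A : Submodule (PR K n) (m → PR K n)} {b : κ → m → PR K n}, Lin (t + 1) d A →
    (∀ a x, (b a x).IsHomogeneous d) →
    Lin t 1 (A.comap (Fintype.linearCombination (PR K n) b)) →
    Lin (t + 1) d (A ⊔ span (PR K n) (range b)) := by
  intro t
  induction t with
  | zero =>
    rintro m κ _ d _ b ⟨ι, _, a, ha, rfl, h3⟩ hb h
    refine ⟨ι ⊕ κ, inferInstance, Sum.elim a b, by rintro (i | i) <;> simp [ha, hb],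
      by rw [Sum.elim_range, span_union], ?_⟩
    refine (Submodule.eq_bot_iff _).2 fun s hs => ?_
    rw [mem_ker, lc_sum] at hs
    have e1 : (fun i => s (.inr i)) = 0 := (Submodule.eq_bot_iff _).1 h _ (by
      rw [Submodule.mem_comap, eq_neg_of_add_eq_zero_right hs]
      exact neg_mem (lc_mem _ _))
    rw [e1, map_zero, add_zero] at hs
    have e2 : (fun i => s (.inl i)) = 0 := (Submodule.eq_bot_iff _).1 h3 _ hs
    ext1 x
    cases x with
    | inl i => exact congrFun e2 i
    | inr i => exact congrFun e1 i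
  | succ t ih =>
    rintro m κ _ d _ b ⟨ι, _, a, ha, rfl, h3⟩ hb ⟨ρ, _, r, hr, h4, h5⟩
    refine ⟨ι ⊕ κ, inferInstance, Sum.elim a b, by rintro (i | i) <;> simp [ha, hb],
      by rw [Sum.elim_range, span_union], ?_⟩
    have hc : ∀ l, ∃ c : ι → PR K n, (∀ i, (c i).IsHomogeneous 1) ∧
        Fintype.linearCombination (PR K n) a c = Fintype.linearCombination (PR K n) b (r l) := by
      refine fun l => lift_lin ha (fun x => ?_) ?_
      · simp only [Fintype.linearCombination_apply, Finset.sum_apply, Pi.smul_apply, smul_eq_mul]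
        exact IsHomogeneous.sum _ _ _ fun i _ => (hr l i).mul (hb i x)
      · rw [← Submodule.mem_comap, ← h4]; exact subset_span ⟨l, rfl⟩
    choose c hc1 hc2 using hc
    have inj : Function.Injective (ext0 (K := K) (n := n) ι κ) := fun s t e =>
      funext fun i => congrFun e (.inl i)
    have h6 := h3.map (ext0 ι κ) inj (by
      rintro y hy (x | x)
      exacts [hy x, isHomogeneous_zero _ _ _])
    have kr : ∀ l, Sum.elim (-c l) (r l) ∈
        ker (Fintype.linearCombination (PR K n) (Sum.elim a b)) := fun l => by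
      rw [mem_ker, lc_sum]
      change Fintype.linearCombination (PR K n) a (-c l) +
        Fintype.linearCombination (PR K n) b (r l) = 0
      rw [map_neg, hc2, neg_add_cancel]
    have ka : (ker (Fintype.linearCombination (PR K n) a)).map (ext0 ι κ) ≤
        ker (Fintype.linearCombination (PR K n) (Sum.elim a b)) := by
      rintro _ ⟨s, hs, rfl⟩
      rw [mem_ker, lc_sum]
      have : Fintype.linearCombination (PR K n) a s = 0 := hs
      simpa [ext0, Fintype.linearCombination_apply] using this
    have kb : ∀ s ∈ ker (Fintype.linearCombination (PR K n) (Sum.elim a b)),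
        (fun i => s (.inr i)) = 0 →
        s ∈ (ker (Fintype.linearCombination (PR K n) a)).map (ext0 ι κ) := fun s hs e => by
      rw [mem_ker, lc_sum, e, map_zero, add_zero] at hs
      refine ⟨_, hs, funext fun x => ?_⟩
      cases x with
      | inl i => rfl
      | inr i => exact (congrFun e i).symm
    have kc : ∀ z : ρ → PR K n, (fun i => Fintype.linearCombination (PR K n)
        (fun l => Sum.elim (-c l) (r l)) z (.inr i)) =
        Fintype.linearCombination (PR K n) r z := fun z => by
      ext1 i; simp [Fintype.linearCombination_apply]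
    have kd : span (PR K n) (range fun l => Sum.elim (-c l) (r l)) ≤
        ker (Fintype.linearCombination (PR K n) (Sum.elim a b)) :=
      span_le.2 (by rintro _ ⟨l, rfl⟩; exact kr l)
    have h7 := ih (b := fun l => Sum.elim (-c l) (r l)) h6 (by
      rintro l (x | x)
      exacts [(hc1 l x).neg, hr l x]) (by
      convert h5 using 1
      ext z
      rw [Submodule.mem_comap, mem_ker, ← kc]
      refine ⟨?_, kb _ (kd (lc_mem _ _))⟩
      rintro ⟨s, -, e⟩
      rw [← e]; rfl)
    convert h7 using 1
    refine le_antisymm (fun s hs => ?_) (sup_le ka kd)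
    have e1 : (fun i => s (.inr i)) ∈ span (PR K n) (range r) := by
      rw [mem_ker, lc_sum] at hs
      rw [h4, Submodule.mem_comap, eq_neg_of_add_eq_zero_right hs]
      exact neg_mem (lc_mem _ _)
    obtain ⟨z, hz⟩ := (mem_span_range_iff_exists_fun _).1 e1
    rw [← sub_add_cancel s
      (Fintype.linearCombination (PR K n) (fun l => Sum.elim (-c l) (r l)) z)]
    refine add_mem (mem_sup_left (kb _ (sub_mem hs (kd (lc_mem _ _))) ?_))
      (mem_sup_right (lc_mem _ _))
    ext1 i
    have e2 := congrFun (kc z) i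
    have e3 := congrFun hz i
    rw [← Fintype.linearCombination_apply] at e3
    simp only [Pi.sub_apply, e2, e3, sub_self, Pi.zero_apply]

theorem Lin.step {t : ℕ} {m : Type} {d : ℕ} {N : Submodule (PR K n) (m → PR K n)}
    (h : Lin t d N) : ∃ (b : ℕ) (g : Fin b → m → PR K n), (∀ a x, (g a x).IsHomogeneous d) ∧
      span (PR K n) (range g) = N ∧ Lin t 1 (ker (Fintype.linearCombination (PR K n) g)) := by
  obtain ⟨ι, _, g, h1, h2, h3⟩ := h.succ
  let e := Fintype.equivFin ι
  refine ⟨_, g ∘ e.symm, fun a => h1 _, by rw [e.symm.surjective.range_comp, h2], ?_⟩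
  have := h3.map (LinearEquiv.funCongrLeft (PR K n) (PR K n) e.symm).toLinearMap
    (LinearEquiv.injective _) fun y hy x => hy _
  convert this using 1
  ext s
  rw [mem_map_equiv, mem_ker, mem_ker, Fintype.linearCombination_apply,
    Fintype.linearCombination_apply, ← e.sum_comp]
  simp

/-- An ideal as a submodule of the free module of rank one. -/
noncomputable def toSub (J : Ideal (PR K n)) : Submodule (PR K n) (Unit → PR K n) :=
  Submodule.comap (LinearMap.proj ()) J

theorem Lin.res {t d : ℕ} {J : Ideal (PR K n)} (h : Lin t d (toSub J)) :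
    HasLinearResolution J := by
  let St := {p : Σ b : ℕ, Submodule (PR K n) (Fin b → PR K n) // Lin t 1 p.2}
  have hs := fun p : St => p.2.step
  choose nb ng h1 h2 h3 using hs
  obtain ⟨b0, g, k1, k2, k3⟩ := h.step
  let sq : ℕ → St := fun i => Nat.rec ⟨⟨b0, _⟩, k3⟩ (fun _ p => ⟨⟨nb p, _⟩, h3 p⟩) i
  have e : ∀ p : St, (Matrix.of fun s t => ng p t s).mulVecLin =
      Fintype.linearCombination (PR K n) (ng p) := fun p => by
    refine LinearMap.ext fun y => funext fun x => ?_
    simp [Fintype.linearCombination_apply, Matrix.mulVec, dotProduct, mul_comm]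
  refine ⟨d, fun i => (sq i).1.1, fun s => g s (), fun i => Matrix.of fun s t => ng (sq i) t s,
    fun s => k1 s (), ?_, fun i s t => h1 _ _ _, ?_, fun i => ?_⟩
  · ext f
    have : (fun _ => f) ∈ span (PR K n) (range g) ↔ f ∈ J := by rw [k2]; rfl
    rw [← this, Ideal.mem_span_range_iff_exists_fun, mem_span_range_iff_exists_fun]
    refine exists_congr fun c => ⟨fun k => funext fun x => ?_, fun k => ?_⟩
    · rw [Finset.sum_apply]; exact k
    · have := congrFun k ()
      rwa [Finset.sum_apply] at this
  · rw [LinearMap.exact_iff]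
    erw [e]
    rw [Fintype.range_linearCombination, h2]
    ext s
    change _ ↔ s ∈ ker (Fintype.linearCombination (PR K n) g)
    rw [mem_ker, mem_ker, Fintype.linearCombination_apply, Fintype.linearCombination_apply]
    refine ⟨fun k => funext fun x => ?_, fun k => ?_⟩
    · rw [Finset.sum_apply]; exact k
    · have := congrFun k ()
      rwa [Finset.sum_apply] at this
  · rw [LinearMap.exact_iff]
    erw [e, e]
    rw [Fintype.range_linearCombination, h2]
    rfl

theorem lin_add {t d : ℕ} {J J' : Ideal (PR K n)} {f : PR K n} (h : Lin (t + 1) d (toSub J))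
    (hf : f.IsHomogeneous d) (h' : Lin t 1 (toSub J')) (e : ∀ s, s * f ∈ J ↔ s ∈ J') :
    Lin (t + 1) d (toSub (Ideal.span {f} ⊔ J)) := by
  have := horseshoe t (b := fun _ _ : Unit => f) h (fun _ _ => hf) (by
    convert h' using 1
    ext s
    simp [toSub, Fintype.linearCombination_apply, e])
  convert this using 1
  ext s
  rw [sup_comm, mem_sup]
  simp only [toSub, Submodule.mem_comap, mem_sup, proj_apply, mem_span_range_iff_exists_fun,
    Ideal.mem_span_singleton']
  constructor
  · rintro ⟨y, hy, _, ⟨c, rfl⟩, k⟩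
    exact ⟨fun _ => y, hy, _, ⟨fun _ => c, rfl⟩, funext fun _ => by simpa using k⟩
  · rintro ⟨y, hy, _, ⟨c, rfl⟩, rfl⟩
    exact ⟨y (), hy, _, ⟨c (), rfl⟩, by simp⟩

theorem toSub_bot : toSub (⊥ : Ideal (PR K n)) = ⊥ :=
  (Submodule.eq_bot_iff _).2 fun _ h => funext fun _ => h

theorem mul_mono_mem {U : Set (Fin n →₀ ℕ)} (u : Fin n →₀ ℕ) (s : PR K n) :
    s * monomial u 1 ∈ Ideal.span ((fun v => monomial v (1 : K)) '' U) ↔
      ∀ m ∈ s.support, ∃ v ∈ U, v ≤ m + u := by
  classical
  rw [mem_ideal_span_monomial_image]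
  refine ⟨fun h m hm => h _ ?_, fun h m hm => ?_⟩
  · rw [mem_support_iff, coeff_mul_monomial, mul_one]; exact mem_support_iff.1 hm
  · rw [mem_support_iff, coeff_mul_monomial'] at hm
    split_ifs at hm with k
    · simpa [tsub_add_cancel_of_le k] using h (m - u) (mem_support_iff.2 (by simpa using hm))
    · exact absurd rfl hm

theorem lin_var (V : Finset (Fin n)) : Lin V.card 1 (toSub (Ideal.span
    ((fun v => monomial v (1 : K)) '' ((fun i => Finsupp.single i 1) '' (V : Set (Fin n)))))) := by
  induction V using Finset.induction_on with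
  | empty => simp only [Finset.coe_empty, image_empty, Ideal.span_empty]; exact toSub_bot
  | insert i V hi ih =>
    rw [Finset.card_insert_of_notMem hi, Finset.coe_insert, image_insert_eq, image_insert_eq,
      Ideal.span_insert]
    refine lin_add ih.succ (isHomogeneous_monomial _ (by simp)) ih fun s => ?_
    rw [mul_mono_mem, mem_ideal_span_monomial_image]
    refine forall₂_congr fun m _ => exists_congr fun v => and_congr_right ?_
    rintro ⟨j, hj, rfl⟩
    have : i ≠ j := fun e => hi (e ▸ hj)
    simp [Finsupp.single_le_iff, this]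

/-- Linear quotients with respect to a potential. -/
theorem lin_quot {d : ℕ} (Φ : (Fin n →₀ ℕ) → ℤ) (U : Finset (Fin n →₀ ℕ))
    (hd : ∀ u ∈ U, u.degree = d)
    (h : ∀ u ∈ U, ∀ v ∈ U, v ≠ u → Φ v ≤ Φ u →
      ∃ i, u i < v i ∧ ∃ w ∈ U, Φ w < Φ u ∧ w ≤ u + Finsupp.single i 1) :
    Lin (n + 1) d
      (toSub (Ideal.span ((fun v => monomial v (1 : K)) '' (U : Set (Fin n →₀ ℕ))))) := by
  classical
  induction U using Finset.induction_on_max_value Φ with
  | empty =>
    simp only [Finset.coe_empty, image_empty, Ideal.span_empty]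
    exact Lin.mono (t := 0) toSub_bot (Nat.zero_le _)
  | insert u U hu hm ih =>
    rw [Finset.coe_insert, image_insert_eq, Ideal.span_insert]
    have ih' := ih (fun v hv => hd v (Finset.mem_insert_of_mem hv)) fun a ha v hv e k => by
      obtain ⟨i, k1, w, k2, k3, k4⟩ := h a (Finset.mem_insert_of_mem ha) v
        (Finset.mem_insert_of_mem hv) e k
      exact ⟨i, k1, w, (Finset.mem_insert.1 k2).resolve_left
        (fun e => absurd (hm a ha) (by rw [← e]; omega)), k3, k4⟩
    refine lin_add ih' (isHomogeneous_monomial _ (hd u (Finset.mem_insert_self _ _)))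
      ((lin_var (Finset.univ.filter fun i => ∃ w ∈ U, w ≤ u + Finsupp.single i 1)).mono
        ((Finset.card_le_univ _).trans (by simp))) fun s => ?_
    rw [mul_mono_mem, mem_ideal_span_monomial_image]
    refine forall₂_congr fun m _ => ⟨?_, ?_⟩
    · rintro ⟨v, hv, k⟩
      obtain ⟨i, k1, w, k2, k3, k4⟩ := h u (Finset.mem_insert_self _ _) v
        (Finset.mem_insert_of_mem hv) (fun e => hu (e ▸ hv)) (hm v hv)
      refine ⟨_, ⟨i, by
        simpa using ⟨w, (Finset.mem_insert.1 k2).resolve_left (fun e => by simp [e] at k3), k4⟩,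
        rfl⟩, ?_⟩
      have := k i
      simp only [Finsupp.add_apply] at this
      simp only [Finsupp.single_le_iff]
      omega
    · rintro ⟨_, ⟨i, hi, rfl⟩, k⟩
      obtain ⟨w, k1, k2⟩ : ∃ w ∈ U, w ≤ u + Finsupp.single i 1 := by simpa using hi
      exact ⟨w, k1, k2.trans (by rw [add_comm]; exact add_le_add k le_rfl)⟩

/-- A monomial ideal whose monomials of each degree have linear quotients is componentwise
linear. -/
theorem cwl_of_quot {J : Ideal (PR K n)} {L : Set (Fin n →₀ ℕ)}
    (hJ : ∀ f, f ∈ J ↔ ∀ m ∈ f.support, m ∈ L) (Φ : (Fin n →₀ ℕ) → ℤ)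
    (h : ∀ u ∈ L, ∀ v ∈ L, u.degree = v.degree → v ≠ u → Φ v ≤ Φ u →
      ∃ i, u i < v i ∧ ∃ w ∈ L, w.degree = u.degree ∧ Φ w < Φ u ∧ w ≤ u + Finsupp.single i 1) :
    IsComponentwiseLinear J := by
  classical
  intro j
  have fin : {u ∈ L | u.degree = j}.Finite :=
    (Finsupp.finite_of_degree_le j).subset fun u hu => hu.2.le
  have := lin_quot (K := K) (d := j) Φ fin.toFinset (fun u hu => (fin.mem_toFinset.1 hu).2)
    fun u hu v hv e k => by
      rw [fin.mem_toFinset] at hu hv
      obtain ⟨i, k1, w, k2, k3, k4⟩ := h u hu.1 v hv.1 (hu.2.trans hv.2.symm) e k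
      exact ⟨i, k1, w, fin.mem_toFinset.2 ⟨k2, k3.trans hu.2⟩, k4⟩
  convert this.res using 1
  rw [fin.coe_toFinset]
  refine le_antisymm (Ideal.span_le.2 ?_) (Ideal.span_mono ?_)
  · rintro f ⟨hf, hh⟩
    rw [SetLike.mem_coe, mem_ideal_span_monomial_image]
    refine fun m hm => ⟨m, ⟨(hJ f).1 hf m hm, ?_⟩, le_rfl⟩
    by_contra e
    exact mem_support_iff.1 hm (hh.coeff_eq_zero e)
  · rintro _ ⟨u, hu, rfl⟩
    refine ⟨(hJ _).2 fun m hm => ?_, isHomogeneous_monomial _ hu.2⟩
    rw [Finset.mem_singleton.1 (support_monomial_subset hm)]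
    exact hu.1

end Pool.Agent.MP_d6f7e8_al
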